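import Mathlib
import Pool.Agent.Lib.helper29.Astral36

set_option autoImplicit false

namespace Pool.Agent.Results.MP_3f639a_co.ThreeAstral

open Pool.Agent.Lib.H29.Astral Pool.Agent.Lib.H29.ConfDim Pool.Agent.Lib.H29.Astral36

/-- There is a connected 3-astral geometric (36_4) configuration whose combinatorial type has a
realization with 3-dimensional affine hull. -/
theorem result : ∃ (I : Fin 36 → Fin 36 → Prop) (P : Fin 36 → ℂ) (L : Fin 36 → Set ℂ),
    IsBalanced 4 I ∧ EuRealizes I P L ∧
    (∀ i i', Relation.ReflTransGen (fun a b => ∃ j, I a j ∧ I b j) i i') ∧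
    (Set.range (ptOrbit P L)).ncard = 3 ∧ (Set.range (lnOrbit P L)).ncard = 3 ∧
    3 ∈ hullDims I :=
  ⟨II, _, _, balanced, euReal, connected,
    by rw [funext Pool.Agent.Lib.H29.Astral36.ptOrbit_eq]; exact range_cl,
    by rw [funext Pool.Agent.Lib.H29.Astral36.lnOrbit_eq]; exact range_cl, three_mem⟩

end Pool.Agent.Results.MP_3f639a_co.ThreeAstral
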